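import Pool.Agent.Y683.AA.SW6
import Pool.Agent.Y683.Cent
import Pool.Agent.W765.HK.Pair
import Pool.Agent.W216.CY.Div
import Pool.Agent.W287.HK.Basic
import Pool.Agent.W571.HK.Cls
import Pool.Agent.W53.HK.Fp
import Pool.Agent.W366.HK.Fpr
import Pool.Agent.W585.HK.LAT
import Pool.Agent.W692.HK.Ker
import Pool.Agent.W584.HK.CNT
import Pool.Agent.W513.HK.Divr
import Pool.Agent.W822.HK.MU
import Pool.Agent.W240.HK.Count
import Pool.Agent.W856.HK.Dec
import Pool.Agent.W636.HK.Gauss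
import Pool.Agent.W348.HK.Pois

/-!
# All powers of all elliptic curves with complex multiplication, over 100% of the cyclic extensions

`R` is the ring of integers of an imaginary quadratic field `K` of any class number.  A primitive
Hecke character `χ` of `K` of finite order `n` is a faithful character of the Galois group of a cyclic
extension `M` of `K` of degree `n`, and the powers `χ^j` are all the characters of this group.  For an
elliptic curve `E` over `K` with complex multiplication by `K` and Hecke character `φ`, the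
`L`-function of `H^(2i+1)` of `E^(2i+1)` over `M` is a product of shifts of the `L(ψ χ^j, s)`, where
`ψ` is (induced by) `φ^(2m-1)` with `1 ≤ m ≤ i + 1`, and of their complex conjugates; the centre
`s = i + 1` becomes `s = m`.

* For `100%` of the `χ` of conductor of norm at most `X` (all but a proportion of
  `O(exp(-c (log X)^(1/3)))`): the order `n` is larger than `X^(1 - η)`, and `L(ψ χ^j, m) ≠ 0` for all
  `ψ` of conductor of norm at most `X^δ`, all weights `m` and all powers `j` at once, such that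
  `gcd(j, n) (X^(2/3) + (m X)^(1/2)) ≤ X^(1 - η)`.
* For all `χ`, the total order of vanishing over `M` at `s = m` of `ψ` is at most
  `C (m X)^η (X^(2/3) + (m X)^(1/2))`.

The input on central values is the starting theorem (`Pool.Agent.Y683.nonvan`): `L(θ, m) ≠ 0` if the
finite part of `θ` has large order.  New here: few characters `χ` have a finite part of small order,
one exceptional set serves for all `ψ`, `m` and `j`.
-/

set_option autoImplicit false

open Complex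

namespace Pool.Agent.Results.MP_6dc9d1_nt.AllPowersSimultaneously

/-- The norm `N(I)` of an ideal (`0` for the zero ideal, whose residue ring is infinite). -/
noncomputable def norm {R : Subring ℂ} (I : Ideal R) : ℝ := (Nat.card (R ⧸ I) : ℝ)

/-- `θ`, a function on the ideals of `R`, is a primitive Hecke character of conductor `q` and infinity
type `(n, 0)`: it is multiplicative, vanishes exactly at the zero ideal and the ideals not prime to
`q`, satisfies `θ((α)) = α ^ n` for `α ≡ 1 mod q`, and this fails for every strictly larger ideal `q'`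
in place of `q`. -/
structure IsHecke {R : Subring ℂ} (n : ℕ) (q : Ideal R) (θ : Ideal R → ℂ) : Prop where
  ne_bot : q ≠ ⊥
  mul : ∀ I J : Ideal R, θ (I * J) = θ I * θ J
  eq_zero : ∀ I : Ideal R, θ I = 0 ↔ (I = ⊥ ∨ ¬ IsCoprime I q)
  principal : ∀ α : R, α ≠ 0 → α - 1 ∈ q → θ (Ideal.span {α}) = (α : ℂ) ^ n
  primitive : ∀ q' : Ideal R, q < q' → ∃ α : R, α ≠ 0 ∧ α - 1 ∈ q' ∧ IsCoprime (Ideal.span {α}) q ∧
    θ (Ideal.span {α}) ≠ (α : ℂ) ^ n

/-- The primitive Hecke characters of finite order whose conductor has norm at most `X`. -/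
def FiniteOrder (R : Subring ℂ) (X : ℕ) : Set (Ideal R → ℂ) :=
  {χ | ∃ c : Ideal R, IsHecke 0 c χ ∧ norm c ≤ X}

/-- `n` is the order of `χ`. -/
def HasOrder {R : Subring ℂ} (χ : Ideal R → ℂ) (n : ℕ) : Prop :=
  0 < n ∧ ∀ k : ℕ, (∀ I : Ideal R, χ I ≠ 0 → χ I ^ k = 1) ↔ n ∣ k

/-- `ψ` is a primitive Hecke character of infinity type `(2m - 1, 0)` whose conductor has norm at
most `B`. -/
def OfType {R : Subring ℂ} (m : ℕ) (B : ℝ) (ψ : Ideal R → ℂ) : Prop :=
  ∃ f : Ideal R, IsHecke (2 * m - 1) f ψ ∧ norm f ≤ B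

/-- `θ` is the primitive Hecke character of infinity type `(2m - 1, 0)` attached to `ψ χ^j`. -/
def IsTwist {R : Subring ℂ} (m j : ℕ) (θ ψ χ : Ideal R → ℂ) : Prop :=
  (∃ q : Ideal R, IsHecke (2 * m - 1) q θ) ∧ ∀ I : Ideal R, ψ I * χ I ≠ 0 → θ I = ψ I * χ I ^ j

/-- `F` is entire, `F(s) = ∑ θ(I) N(I)^(-s)` for `Re s > m + 1/2`, and `F` is not identically zero
near `m`. -/
def IsLFunction {R : Subring ℂ} (m : ℕ) (θ : Ideal R → ℂ) (F : ℂ → ℂ) : Prop :=
  Differentiable ℂ F ∧ analyticOrderAt F m ≠ ⊤ ∧ ∀ s : ℂ, (m : ℝ) + 1 / 2 < s.re →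
    HasSum (fun I : Ideal R => θ I * (norm I : ℂ) ^ (-s)) (F s)

/-- `exp(-c (log X)^(1/3))`. -/
noncomputable def decay (c : ℝ) (X : ℕ) : ℝ := Real.exp (-c * (Real.log X) ^ ((1 : ℝ) / 3))

/-- `X^(2/3) + (m X)^(1/2)`. -/
noncomputable def size (m X : ℕ) : ℝ := (X : ℝ) ^ (2 / 3 : ℝ) + (m * X : ℝ) ^ (1 / 2 : ℝ)

/-- The exceptional characters `χ` of finite order `n` with a conductor of norm at most `X`: those
with `n ≤ X^(1 - η)`, or with `L(ψ χ^j, m) = 0` for some `m ≥ 1`, `j` with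
`gcd(j, n) (X^(2/3) + (m X)^(1/2)) ≤ X^(1 - η)` and some `ψ` of type `(2m - 1, 0)` with a conductor of
norm at most `X^δ`. -/
def Exceptional {R : Subring ℂ} (L : ℕ → (Ideal R → ℂ) → ℂ → ℂ) (η δ : ℝ) (X : ℕ) :
    Set (Ideal R → ℂ) :=
  {χ ∈ FiniteOrder R X | ∃ n : ℕ, HasOrder χ n ∧ ((n : ℝ) ≤ (X : ℝ) ^ (1 - η) ∨
    ∃ (m j : ℕ) (ψ θ : Ideal R → ℂ), 1 ≤ m ∧
      (Nat.gcd j n : ℝ) * size m X ≤ (X : ℝ) ^ (1 - η) ∧ OfType m ((X : ℝ) ^ δ) ψ ∧
      IsTwist m j θ ψ χ ∧ L m θ m = 0)}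

theorem isHecke_iff {R : Subring ℂ} (n : ℕ) (f : Ideal R) (ψ : Ideal R → ℂ) :
    IsHecke n f ψ ↔ Pool.Agent.W192.HK.HC n f ψ :=
  ⟨fun h => ⟨h.ne_bot, h.mul, h.eq_zero, h.principal, h.primitive⟩,
    fun h => ⟨h.ne, h.mul, h.zero, h.princ, h.prim⟩⟩

/-- **Main theorem.** Let `R = ℤ + ℤ ω` be a subring of `ℂ` that is a lattice and a Dedekind domain.
The primitive Hecke characters `θ` of type `(2m - 1, 0)`, `m ≥ 1`, have entire `L`-functions `L m θ`,
not identically zero near `m`.  Only finitely many primitive Hecke characters of finite order have a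
conductor of norm at most `X`, for large `X` at least `c (X / log X)²`; each `χ` of them has an order,
and for all `ψ` of type `(2m - 1, 0)` and all `j` there is a primitive character attached to `ψ χ^j`.

Let `η > 0`.  There are `δ`, `C`, `c > 0` such that for all `X ≥ 1`:

(A) For all `χ` of finite order and conductor of norm at most `X` but a proportion of at most
`C exp(-c (log X)^(1/3))`, the order `n` of `χ` is larger than `X^(1 - η)`, and `L(ψ χ^j, m) ≠ 0` for
all `m ≥ 1`, all `ψ` of type `(2m - 1, 0)` with a conductor of norm at most `X^δ` and all `j` at once,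
such that `gcd(j, n) (X^(2/3) + (m X)^(1/2)) ≤ X^(1 - η)`.

(B) For all `χ` of finite order `n` and conductor of norm at most `X`, all `m ≥ 1` and all `ψ` of type
`(2m - 1, 0)` with a conductor of norm at most `X^δ`, the sum over `0 ≤ j < n` of the orders of
vanishing of `L(ψ χ^j, s)` at `s = m` is at most `C (m X)^η (X^(2/3) + (m X)^(1/2))`. -/
theorem result (R : Subring ℂ) (ω : ℂ) (hω : 0 < ω.im)
    (hR : ∀ z : ℂ, z ∈ R ↔ ∃ x y : ℤ, z = x + y * ω) (hded : IsDedekindDomain R) :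
    ∃ L : ℕ → (Ideal R → ℂ) → ℂ → ℂ,
      (∀ (m : ℕ) (q : Ideal R) (θ : Ideal R → ℂ), 1 ≤ m → IsHecke (2 * m - 1) q θ →
        IsLFunction m θ (L m θ)) ∧
      (∀ X : ℕ, (FiniteOrder R X).Finite) ∧
      (∃ c X₀ : ℝ, 0 < c ∧ ∀ X : ℕ, X₀ ≤ X →
        c * ((X : ℝ) / Real.log X) ^ 2 ≤ (FiniteOrder R X).ncard) ∧
      (∀ (X : ℕ) (χ : Ideal R → ℂ), χ ∈ FiniteOrder R X → (∃ n : ℕ, HasOrder χ n) ∧
        ∀ (m j : ℕ) (B : ℝ) (ψ : Ideal R → ℂ), OfType m B ψ →
          ∃ θ : Ideal R → ℂ, IsTwist m j θ ψ χ) ∧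
      ∀ η : ℝ, 0 < η → ∃ δ C c : ℝ, 0 < δ ∧ 0 < C ∧ 0 < c ∧ ∀ X : ℕ, 1 ≤ X →
        ((Exceptional (R := R) L η δ X).ncard : ℝ) ≤ C * decay c X * (FiniteOrder R X).ncard ∧
        ∀ (χ : Ideal R → ℂ) (n m : ℕ) (ψ : Ideal R → ℂ) (θ : ℕ → Ideal R → ℂ),
          χ ∈ FiniteOrder R X → HasOrder χ n → 1 ≤ m → OfType m ((X : ℝ) ^ δ) ψ →
          (∀ j < n, IsTwist m j (θ j) ψ χ) →
          ((∑ j ∈ Finset.range n, analyticOrderNatAt (L m (θ j)) m : ℕ) : ℝ) ≤
            C * ((m * X : ℝ) ^ η * size m X) := by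
  classical
  have hbasic := Pool.Agent.W287.HK.h_basic
  have hcls := Pool.Agent.W571.HK.h_cls hbasic
  have hfp := Pool.Agent.W53.HK.h_fp hbasic hcls
  have hfpr := Pool.Agent.W366.HK.h_fpr hbasic hcls
  have hlat := Pool.Agent.W585.HK.h_lat hbasic
  have hker := Pool.Agent.W692.HK.h_ker hbasic hcls hfpr
  have hcnt := Pool.Agent.W584.HK.h_cnt hbasic hcls hfpr hlat hker
  have hdivr := Pool.Agent.W513.HK.h_divr hbasic
  have hmu := Pool.Agent.W822.HK.h_mu hbasic
  have hcount := Pool.Agent.W240.HK.h_count hbasic hcnt hdivr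
  have hdiv := Pool.Agent.W216.CY.t_div
  have hdec := Pool.Agent.W856.HK.h_dec hbasic
  have hgauss := Pool.Agent.W636.HK.h_gauss hbasic hfp
  have hpois := Pool.Agent.W348.HK.h_pois hbasic
  have htheta := Pool.Agent.TH936.HK.h_theta hbasic hfp hdec hgauss hpois hcnt
  have hafe := Pool.Agent.TH936.HK.h_afe hbasic hfp hcnt hgauss htheta
  have htail := Pool.Agent.Y683.tailz hbasic hcnt hcount
  have hmain := Pool.Agent.Y683.mainb hbasic hcnt hdivr htail
  have hdual := Pool.Agent.Y683.dualb hdiv hbasic hcnt hker hfpr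
  have hfin := Pool.Agent.Y683.finb hdiv hbasic hcnt hmu hmain hdual
  have hQ : Pool.Agent.W192.HK.QR R ω := ⟨hω, hR, hded⟩
  obtain ⟨C0, hC⟩ := Pool.Agent.Y683.AA.exists_idCount hbasic hcnt hQ
  obtain ⟨L, hL, K, ho⟩ := Pool.Agent.Y683.AA.exists_L hbasic hcls hcnt hfpr hfp hdec hgauss
    htheta hafe hfin hQ
  have hchar : ∀ X : ℕ, FiniteOrder R X = Pool.Agent.Y683.AA.Hk R 0 X := by
    intro X
    ext θ
    constructor
    · rintro ⟨q, h1, h2⟩
      refine ⟨q, (isHecke_iff _ _ _).1 h1, ?_⟩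
      have : ((Nat.card (R ⧸ q) : ℕ) : ℝ) ≤ X := h2
      exact_mod_cast this
    · rintro ⟨q, h1, h2⟩
      refine ⟨q, (isHecke_iff _ _ _).2 h1, ?_⟩
      change ((Nat.card (R ⧸ q) : ℕ) : ℝ) ≤ X
      exact_mod_cast h2
  refine ⟨L, fun m q θ hm hθ => ?_, fun X => ?_, ?_, fun X χ hχ => ⟨?_, fun m j B ψ hψ => ?_⟩,
    fun η hη => ?_⟩
  · have h := hL m q θ hm ((isHecke_iff _ _ _).1 hθ)
    exact ⟨h.diff, h.ord, h.sum⟩
  · rw [hchar]
    exact Pool.Agent.Y683.AA.hk_finite hbasic hcls hfp hQ hC 0 X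
  · obtain ⟨c, X0, hc, hX0, h1⟩ := Pool.Agent.Y683.AA.hk_lower hbasic hcls hfp hQ hC
    refine ⟨c / 9, max X0 3, by positivity, fun X hX => ?_⟩
    have h2 := h1 0 X ((le_max_left _ _).trans hX)
    rw [hchar]
    have h3 : (3 : ℝ) ≤ X := (le_max_right _ _).trans hX
    have hlog : 1 ≤ Real.log X := by
      rw [Real.le_log_iff_exp_le (by linarith)]
      have := Real.exp_one_lt_d9
      linarith
    rw [div_pow, ← mul_div_assoc, div_le_iff₀ (by positivity)]
    have h4 : (1 + 2 * Real.log X) ^ 2 ≤ 9 * (Real.log X) ^ 2 := by nlinarith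
    have h5 := mul_le_mul_of_nonneg_left h4
      (Nat.cast_nonneg (α := ℝ) (Pool.Agent.Y683.AA.Hk R 0 X).ncard)
    linarith
  · obtain ⟨c, hc, -⟩ := hχ
    exact Pool.Agent.Y683.AA.exists_ord hbasic hcls hQ
      (Pool.Agent.Y683.AA.HC.imp ((isHecke_iff _ _ _).1 hc))
  · obtain ⟨c, hc, -⟩ := hχ
    obtain ⟨f, hf, -⟩ := hψ
    obtain ⟨q, θ, h1, h2⟩ := Pool.Agent.Y683.AA.exists_tw hbasic hcls hQ j
      ((isHecke_iff _ _ _).1 hf) ((isHecke_iff _ _ _).1 hc)
    exact ⟨θ, ⟨q, (isHecke_iff _ _ _).2 h1⟩, h2⟩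
  · set ε : ℝ := min η 1 with hε
    have hε0 : 0 < ε := lt_min hη one_pos
    have hε1 : ε ≤ 1 := min_le_right _ _
    have hεη : ε ≤ η := min_le_left _ _
    obtain ⟨C1, c1, hC1, hc1, h1⟩ :=
      Pool.Agent.Y683.AA.bq_main hbasic hcls hfp hdivr hQ hC ho hε0 hε1
    obtain ⟨C2, hC2, h2⟩ := Pool.Agent.Y683.AA.pow_total hbasic hcls hfp hQ ho hε0 hε1
    refine ⟨ε / 16, max C1 C2, c1, by positivity, lt_max_of_lt_left hC1, hc1, fun X hX =>
      ⟨?_, fun χ n m ψ θ hχ hn hm hψ hθ => ?_⟩⟩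
    · have hX1 : (1 : ℝ) ≤ X := by exact_mod_cast hX
      have hXX : (X : ℝ) ^ (1 - η) ≤ (X : ℝ) ^ (1 - ε) :=
        Real.rpow_le_rpow_of_exponent_le hX1 (by linarith)
      have hsub : Exceptional (R := R) L η (ε / 16) X ⊆
          Pool.Agent.Y683.AA.Bq R (fun m θ => analyticOrderNatAt (L m θ) (m : ℂ)) ε X := by
        rintro χ ⟨hχ, n, hn, h3⟩
        rw [hchar] at hχ
        refine ⟨hχ, n, hn, ?_⟩
        rcases h3 with h3 | ⟨m, j, ψ, θ, hm, h4, ⟨f, hf, hfX⟩, ⟨⟨q, hq⟩, hag⟩, hz⟩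
        · exact Or.inl (h3.trans hXX)
        · refine Or.inr ⟨m, j, f, q, ψ, θ, hm, h4.trans hXX, (isHecke_iff _ _ _).1 hf, hfX,
            (isHecke_iff _ _ _).1 hq, hag, fun h5 => ?_⟩
          have h := hL m q θ hm ((isHecke_iff _ _ _).1 hq)
          have h5' : analyticOrderNatAt (L m θ) (m : ℂ) = 0 := h5
          have h6 : analyticOrderAt (L m θ) m = 0 := by
            rw [← Nat.cast_analyticOrderNatAt h.ord, h5']
            rfl
          exact ((h.diff.analyticAt _).analyticOrderAt_eq_zero.1 h6) hz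
      have hfinB : (Pool.Agent.Y683.AA.Bq R
          (fun m θ => analyticOrderNatAt (L m θ) (m : ℂ)) ε X).Finite :=
        (Pool.Agent.Y683.AA.hk_finite hbasic hcls hfp hQ hC 0 X).subset fun χ h => h.1
      have h5 := (Nat.cast_le (α := ℝ)).2 (Set.ncard_le_ncard hsub hfinB)
      refine h5.trans ((h1 X hX).trans ?_)
      rw [hchar]
      have h6 : 0 < Real.exp (-c1 * Pool.Agent.Y683.AA.cr X) := Real.exp_pos _
      change C1 * Real.exp (-c1 * Pool.Agent.Y683.AA.cr X) * _ ≤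
        max C1 C2 * Real.exp (-c1 * Pool.Agent.Y683.AA.cr X) * _
      have h7 := le_max_left C1 C2
      gcongr
    · obtain ⟨c, hc, hcX⟩ := hχ
      obtain ⟨f, hf, hfX⟩ := hψ
      have hcX' : Pool.Agent.Y683.AA.nn c ≤ X := by
        have : ((Nat.card (R ⧸ c) : ℕ) : ℝ) ≤ X := hcX
        exact_mod_cast this
      have h3 := h2 X hX c χ n ((isHecke_iff _ _ _).1 hc) hcX' hn m f ψ hm
        ((isHecke_iff _ _ _).1 hf) hfX θ (fun j hj => by
          obtain ⟨⟨q, hq⟩, hag⟩ := hθ j hj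
          exact ⟨⟨q, (isHecke_iff _ _ _).1 hq⟩, hag⟩)
      refine h3.trans ?_
      have hmX : (1 : ℝ) ≤ m * X := by
        have h4 : (1 : ℝ) ≤ m := by exact_mod_cast hm
        have h5 : (1 : ℝ) ≤ X := by exact_mod_cast hX
        nlinarith
      have h4 : (m * X : ℝ) ^ ε ≤ (m * X : ℝ) ^ η := Real.rpow_le_rpow_of_exponent_le hmX hεη
      have h5 : 0 ≤ size m X := by unfold size; positivity
      have h6 : 0 ≤ (m * X : ℝ) ^ η := by positivity
      have h7 := le_max_right C1 C2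
      change C2 * ((m * X : ℝ) ^ ε * size m X) ≤ max C1 C2 * ((m * X : ℝ) ^ η * size m X)
      gcongr

end Pool.Agent.Results.MP_6dc9d1_nt.AllPowersSimultaneously
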