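import Pool.Agent.Y18.LP.Main

/-!
# Infinite abelian towers of prime power exponent in which elliptic curves have analytic rank zero

`E_i : y² = x³ + a_i x + b_i` (`i = 1, …, m`) are elliptic curves over `ℚ` with `L(E_i, 1) ≠ 0`, given
with their newforms, and `l` is a prime.  A prime `q` is admissible if `q ∤ 2Δ_i` and
`l ∤ #E_i(ℤ/q)` for all `i`.

Theorem: let `H` be an infinite group of Dirichlet characters of order dividing `l ^ n` and of squarefree
conductors composed of admissible primes.  Then `H` has an infinite subgroup `H'` such that for all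
number fields `F` contained in the infinite abelian extension of `ℚ` attached to `H'` and all `i` the
Hasse-Weil `L`-function `L(E_i/F, s)` is entire and does not vanish at `s = 1`.

By Kato's theorem the groups `CH^1(E_i)_0 = E_i(F)` are finite, so that Beilinson's conjecture holds for
the curves `X = E_i` over all these fields `F` (the case `i = 0` of the problem, both sides being `0`).  The hypotheses hold for `X_0(11)`, that is
`y² = x³ - 13392 x - 1080432` (second part of the theorem).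

The proof: the sums of the modular symbols of the twists, multiplied by units modulo a prime ideal
`P ∣ l` of a ring `R` which is finite over `ℤ`, are the values of a combination of characters of `H`
with coefficients in a finite `R`-module `W`, and so are the products of these sums over the elements
of a coset `c ^ j G`, `G` a finite subgroup.  Iterated differences of such a function are divisible by
powers of `P`.  By Krull's intersection theorem the value at the origin is not in `P ^ (V + 1) W` for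
some `V`, and this implies that the function is not zero on every translate of a set of `2 ^ V`
elements.  So a finite subgroup without zeros can always be enlarged inside `H`.
-/

set_option autoImplicit false

open Complex UpperHalfPlane MatrixGroups CongruenceSubgroup NumberField IsDedekindDomain

namespace Pool.Agent.Results.MP_6dc9d1_nt.InfiniteAbelianTowers

/-- `N_p`: the number of pairs `(x, y) ∈ (ℤ/p)²` with `y² = x³ + a x + b`. -/
noncomputable def pointCount (a b : ℤ) (p : ℕ) : ℕ :=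
  Nat.card {q : ZMod p × ZMod p // q.2 ^ 2 = q.1 ^ 3 + (a : ZMod p) * q.1 + (b : ZMod p)}

/-- `p` is a prime not dividing `2 Δ`, `Δ = -4 a³ - 27 b²`. -/
def GoodPrime (a b : ℤ) (p : ℕ) : Prop :=
  p.Prime ∧ ¬ ((p : ℤ) ∣ 2 * (-4 * a ^ 3 - 27 * b ^ 2))

open Classical in
/-- `L(E, 1) ≠ 0` for `E : y² = x³ + a x + b`: there is an entire function `F` which for
`Re s > 3/2` is the incomplete L-series `∏_{p ∤ 2Δ} (1 - a_p p^{-s} + p^{1-2s})⁻¹`, `a_p = p - N_p`,
of `E` over `ℚ`, and `F(1) ≠ 0`. -/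
def AnalyticRankZero (a b : ℤ) : Prop :=
  ∃ F : ℂ → ℂ, (Differentiable ℂ F ∧ ∀ s : ℂ, (3 : ℝ) / 2 < s.re →
    HasProd (fun p : ℕ => if GoodPrime a b p then
      (1 - ((p : ℂ) - (pointCount a b p : ℂ)) * (p : ℂ) ^ (-s) + (p : ℂ) ^ (1 - 2 * s))⁻¹ else 1)
      (F s)) ∧ F 1 ≠ 0

/-- `q` is a prime, `q ∤ 2 Δ`, and `l` does not divide the number `N_q + 1` of the points of `E` over
`ℤ/q` (with the point at infinity). -/
def Admissible (a b : ℤ) (l q : ℕ) : Prop := GoodPrime a b q ∧ ¬ l ∣ pointCount a b q + 1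

/-- The families `c = (c_q)` of characters `c_q` of the groups `(ℤ/q)ˣ`.  The family with `c_q = 1`
except for the primes `q` of a finite set stands for the Dirichlet character `χ_c = ∏ c_q` of
squarefree conductor; this is an isomorphism of groups. -/
abbrev Fam : Type := (q : ℕ) → (ZMod q)ˣ →* ℂˣ

open Classical in
/-- The set of the `q` with `c_q ≠ 1` (if it is finite). -/
noncomputable def supp (c : Fam) : Finset ℕ :=
  if h : {q | c q ≠ 1}.Finite then h.toFinset else ∅

/-- The conductor of `χ_c`. -/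
noncomputable def conductor (c : Fam) : ℕ := ∏ q ∈ supp c, q

/-- The value `χ_c(m)`. -/
noncomputable def value (c : Fam) (m : ℕ) : ℂ :=
  ∏ q ∈ supp c, if h : m.Coprime q then (c q (ZMod.unitOfCoprime m h) : ℂ) else 0

open Classical in
/-- The Gaussian period `∑ exp(2 π i u / M)`, `0 ≤ u < M`, `χ_c(u) = 1`, where `M` is the conductor of
`χ_c`.  It generates the cyclic extension of `ℚ` attached to `χ_c` (the subfield of `ℚ(exp(2 π i / M))`
fixed by the kernel of `χ_c`; recall that `M` is squarefree). -/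
noncomputable def period (c : Fam) : ℂ :=
  ∑ u ∈ (Finset.range (conductor c)).filter (fun u => value c u = 1),
    Complex.exp (2 * Real.pi * Complex.I / (conductor c : ℕ)) ^ u

/-- `H` is a group of Dirichlet characters of order dividing `l ^ n` and of squarefree conductors
composed of primes admissible for all the curves. -/
structure IsCharGroup {m : ℕ} (a b : Fin m → ℤ) (l n : ℕ) (H : Subgroup Fam) : Prop where
  pow : ∀ c ∈ H, c ^ (l ^ n) = 1
  finite : ∀ c ∈ H, {q | c q ≠ 1}.Finite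
  admissible : ∀ c ∈ H, ∀ q, c q ≠ 1 → q.Prime ∧ ∀ i, Admissible (a i) (b i) l q

/-- The `n`-th Fourier coefficient of `f`. -/
noncomputable def coef {N : ℕ} (f : CuspForm (Gamma0 N : Subgroup (GL (Fin 2) ℝ)) 2) (n : ℕ) : ℂ :=
  (qExpansion 1 f).coeff n

/-- `f ∈ S_2(Γ₀(N))` is the newform of the elliptic curve `E : y² = x³ + a x + b`, with its standard
properties: the Fourier coefficients `c(n)` of `f` are real with `c(1) = 1`, they satisfy the Hecke
relations `c(mn) = c(m) c(n)` for coprime `m`, `n` and `c(p^(j+2)) = c(p) c(p^(j+1)) - p c(p^j)`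
(without the last term if `p ∣ N`) and the bounds `|c(p)| ≤ 2√p` for `p ∤ N`, `|c(p)| ≤ 1` for
`p ∣ N`; `f` is an eigenfunction of the Fricke involution: `f(-1/(Nτ)) = -w N τ² f(τ)` with `w = ±1`;
for all primes `p ∤ 2Δ` one has `p ∤ N` and `c(p) = a_p(E)`.  (Every elliptic curve over `ℚ` has such a
form by the modularity theorem.) -/
structure IsFormOf (a b : ℤ) (N : ℕ) (f : CuspForm (Gamma0 N : Subgroup (GL (Fin 2) ℝ)) 2) :
    Prop where
  one : coef f 1 = 1
  real : ∀ n, (coef f n).im = 0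
  mul : ∀ m n : ℕ, Nat.Coprime m n → coef f (m * n) = coef f m * coef f n
  pow : ∀ p j : ℕ, p.Prime → coef f (p ^ (j + 2)) = coef f p * coef f (p ^ (j + 1)) -
      (if p ∣ N then 0 else (p : ℂ) * coef f (p ^ j))
  good : ∀ p : ℕ, p.Prime → ¬ p ∣ N → ‖coef f p‖ ≤ 2 * Real.sqrt p
  bad : ∀ p : ℕ, p.Prime → p ∣ N → ‖coef f p‖ ≤ 1
  fricke : ∃ w : ℝ, (w = 1 ∨ w = -1) ∧ ∀ τ τ' : ℍ, (τ' : ℂ) * ((N : ℂ) * (τ : ℂ)) = -1 →
    f τ' = -(w : ℂ) * (N : ℂ) * (τ : ℂ) ^ 2 * f τ
  points : ∀ p : ℕ, GoodPrime a b p → ¬ p ∣ N ∧ coef f p = (p : ℂ) - (pointCount a b p : ℂ)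

/-- `pw t u n = α ^ n + β ^ n`, where `α`, `β` are the roots of `X² - t X + u`. -/
noncomputable def pw (t u : ℂ) : ℕ → ℂ
  | 0 => 2
  | 1 => t
  | n + 2 => t * pw t u (n + 1) - u * pw t u n

section
variable {F : Type} [Field F] [NumberField F]

/-- The number `a_v` of `E : y² = x³ + a x + b` at a finite place `v` of `F`: `Nv` minus the number of
affine solutions `(x, y)` of the equation over the residue field `𝓞 F / v`. -/
noncomputable def av (a b : ℤ) (v : HeightOneSpectrum (𝓞 F)) : ℤ :=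
  ((Ideal.absNorm v.asIdeal : ℕ) : ℤ) -
    ((Nat.card {x : (𝓞 F ⧸ v.asIdeal) × (𝓞 F ⧸ v.asIdeal) //
      x.2 ^ 2 = x.1 ^ 3 + (a : 𝓞 F ⧸ v.asIdeal) * x.1 + (b : 𝓞 F ⧸ v.asIdeal)} : ℕ) : ℤ)

open Classical in
/-- The Euler factor of `L(E/F, s)` at the finite place `v` of `F`.  If `v ∤ 2 Δ`, it is
`(1 - a_v (Nv)^(-s) + (Nv)^(1-2s))⁻¹`.  If `v ∣ 2 Δ` and `Nv = p ^ d` with `p` prime, it is
`(1 - (α^d + β^d) (Nv)^(-s) + (Nv)^(1-2s))⁻¹` for `p ∤ N`, where `α`, `β` are the roots of
`X² - c(p) X + p`, and `(1 - c(p)^d (Nv)^(-s))⁻¹` for `p ∣ N`.  (The primes `p ∣ 2 Δ` will be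
unramified in `F`, so that this is the Hasse-Weil factor.) -/
noncomputable def factor (a b : ℤ) {N : ℕ} (f : CuspForm (Gamma0 N : Subgroup (GL (Fin 2) ℝ)) 2)
    (s : ℂ) (v : HeightOneSpectrum (𝓞 F)) : ℂ :=
  if ((2 * (4 * a ^ 3 + 27 * b ^ 2) : ℤ) : 𝓞 F) ∈ v.asIdeal then
    (1 - pw (coef f (Ideal.absNorm v.asIdeal).minFac)
          (if (Ideal.absNorm v.asIdeal).minFac ∣ N then 0 else ((Ideal.absNorm v.asIdeal).minFac : ℂ))
          ((Ideal.absNorm v.asIdeal).factorization (Ideal.absNorm v.asIdeal).minFac)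
          * ((Ideal.absNorm v.asIdeal : ℕ) : ℂ) ^ (-s)
      + (if (Ideal.absNorm v.asIdeal).minFac ∣ N then (0 : ℂ) else
          ((Ideal.absNorm v.asIdeal : ℕ) : ℂ) ^ (1 - 2 * s)))⁻¹
  else
    (1 - ((av a b v : ℤ) : ℂ) * ((Ideal.absNorm v.asIdeal : ℕ) : ℂ) ^ (-s)
      + ((Ideal.absNorm v.asIdeal : ℕ) : ℂ) ^ (1 - 2 * s))⁻¹

end

/-- `L(E/F, s)` is entire and `L(E/F, 1) ≠ 0`, for the number field `F ⊂ ℂ` and the elliptic curve
`E : y² = x³ + a x + b` with newform `f`: there is an entire function `G` which for `Re s > 3/2` is the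
Euler product of `E` over all finite places of `F`, and `G(1) ≠ 0`. -/
def NonvanishingOver (F : IntermediateField ℚ ℂ) [NumberField F] (a b : ℤ) {N : ℕ}
    (f : CuspForm (Gamma0 N : Subgroup (GL (Fin 2) ℝ)) 2) : Prop :=
  ∃ G : ℂ → ℂ, Differentiable ℂ G ∧
    (∀ s : ℂ, 3 / 2 < s.re → HasProd (fun v : HeightOneSpectrum (𝓞 F) => factor a b f s v) (G s)) ∧
    G 1 ≠ 0

theorem pw_eq (t u : ℂ) : ∀ n : ℕ, pw t u n = W165.CE.pw t u n
  | 0 => rfl
  | 1 => rfl
  | n + 2 => by rw [pw, W165.CE.pw, pw_eq t u (n + 1), pw_eq t u n]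

theorem factor_eq {F : Type} [Field F] [NumberField F] (a b : ℤ) {N : ℕ}
    (f : CuspForm (Gamma0 N : Subgroup (GL (Fin 2) ℝ)) 2) (s : ℂ) (v : HeightOneSpectrum (𝓞 F)) :
    factor a b f s v = W165.CE.fac a b N (Pool.Agent.Y18.BSD.co f) s v := by
  unfold factor W165.CE.fac
  rw [pw_eq]
  rfl

theorem nonvanishing_of {F : IntermediateField ℚ ℂ} [NumberField F] {a b : ℤ} {N : ℕ}
    {f : CuspForm (Gamma0 N : Subgroup (GL (Fin 2) ℝ)) 2} (h : Pool.Agent.Y18.NF.RZ F a b f) :
    NonvanishingOver F a b f := by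
  obtain ⟨G, h1, h2, h3⟩ := h
  refine ⟨G, h1, fun s hs => ?_, h3⟩
  refine (congrArg (fun g => HasProd g (G s)) (funext fun v => ?_)).mp (h2 s hs)
  exact (factor_eq a b f s v).symm

/-- **Theorem.** (1) Let `E_i : y² = x³ + a_i x + b_i`, `i = 1, …, m`, be elliptic curves over `ℚ` with
newforms `f_i` and `L(E_i, 1) ≠ 0`, `l` a prime and `n` an integer. Let `H` be an infinite group of
Dirichlet characters of order dividing `l ^ n` and of squarefree conductors composed of primes
`q ∤ 2 Δ_i` with `l ∤ #E_i(ℤ/q)`. Then `H` has an infinite subgroup `H'` such that `L(E_i/F, s)` is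
entire with `L(E_i/F, 1) ≠ 0` for all `i` and all number fields `F ⊂ ℂ` contained in the field
generated by the Gaussian periods of all the characters in `H'`.

(2) The curve `X_0(11) : y² = x³ - 13392 x - 1080432` has a newform, of level 11, and
`L(X_0(11), 1) ≠ 0`. -/
theorem result :
    (∀ (m : ℕ) (a b : Fin m → ℤ), (∀ i, 4 * a i ^ 3 + 27 * b i ^ 2 ≠ 0) →
      ∀ N : Fin m → ℕ, (∀ i, N i ≠ 0) →
      ∀ f : (i : Fin m) → CuspForm (Gamma0 (N i) : Subgroup (GL (Fin 2) ℝ)) 2,
      (∀ i, IsFormOf (a i) (b i) (N i) (f i)) → (∀ i, AnalyticRankZero (a i) (b i)) →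
      ∀ l n : ℕ, l.Prime →
      ∀ H : Subgroup Fam, IsCharGroup a b l n H → (H : Set Fam).Infinite →
        ∃ H' : Subgroup Fam, H' ≤ H ∧ (H' : Set Fam).Infinite ∧
          ∀ (F : IntermediateField ℚ ℂ) [NumberField F],
            F ≤ IntermediateField.adjoin ℚ {x : ℂ | ∃ c ∈ H', x = period c} →
            ∀ i, NonvanishingOver F (a i) (b i) (f i)) ∧
    ((∃ f : CuspForm (Gamma0 11 : Subgroup (GL (Fin 2) ℝ)) 2,
      IsFormOf (-13392) (-1080432) 11 f) ∧ AnalyticRankZero (-13392) (-1080432)) := by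
  refine ⟨?_, ?_, ?_⟩
  · intro m a b hΔ N hN f hf h0 l n hl H hH hinf
    have : ∀ i, NeZero (N i) := fun i => ⟨hN i⟩
    obtain ⟨H', h1, h2, h3⟩ := Pool.Agent.Y18.LP.tower m a b hΔ N f
      (fun i => ⟨(hf i).one, (hf i).real, (hf i).mul, (hf i).pow, (hf i).good, (hf i).bad,
        (hf i).fricke, (hf i).points⟩) h0 l n hl H ⟨hH.pow, hH.finite, hH.admissible⟩ hinf
    exact ⟨H', h1, h2, fun F _ hF i => nonvanishing_of (h3 F hF i)⟩
  · have h := Pool.Agent.Y18.BSD.Eleven.isFormOf
    exact ⟨_, ⟨h.one, h.real, h.mul, h.pow, h.good, h.bad, h.fricke, h.points⟩⟩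
  · exact Pool.Agent.Y18.NF.rankZero11

end Pool.Agent.Results.MP_6dc9d1_nt.InfiniteAbelianTowers
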