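import Pool.Agent.Y690.JP.Last2
import Pool.Agent.Y690.JP.Loc
import Pool.Agent.Y37.JP.Fin
import Pool.Agent.Y261.JP.Eul

/-!
# Beilinson's conjecture for the powers of a positive proportion of the curves `E_d` over every
# multiquadratic extension of `ℚ(i)` of a large class, and over infinite towers above it

Let `K = ℚ(i)` and let `E_d` be the elliptic curve `y² = x³ - ((1 + i) d)² x`, the quadratic twist by
`(1 + i) d` of `y² = x³ - x`, for squarefree `d ∈ ℤ[i]` congruent to `1` modulo `2 + 2 i` (`primary`).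

Let `S` be any finite set of primary squarefree Gaussian integers.  For a set of `d` of lower density at
least `0.419 ^ (2 ^ #S)` among the primary squarefree `d` prime to `S` the following holds for
*all* the number fields `F` with

  `K ⊆ F ⊆ K(√D : D ∈ S, √l : l ∈ U)`,

`U` any finite set of rational primes `l = 3 mod 8`, `l = 1 mod N(d ∏ S)` (there are infinitely many
such `l`, by Dirichlet's theorem, so these fields form an infinite tower above the given
field `K(√D : D ∈ S)`):

* `E_d(F)` is finite;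
* for *all* odd `n = 2 m - 1` the `L`-function of the symmetric power `Sym^n E_d` over `F` is entire and
  does not vanish at its centre `s = m`.

As `H^(2 i + 1)(E_d ^ (2 i + 1))` is a direct sum of Tate twists of the odd symmetric powers of
`H^1(E_d)`, Beilinson's conjecture holds for `X = E_d` over `F` (both sides are `0`), and for
`X = E_d ^ (2 i + 1)` over `F`, `i` arbitrary, the order of vanishing of `L(H^(2 i + 1)(X), s)` at
`s = i + 1` is `0`.  (The finitely many Euler factors at the primes dividing the `D` and `l`, which are left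
out below, are finite and not zero at the centre.  The Euler factors at the primes dividing
`(1 + i) d` are `1`.)
-/

set_option autoImplicit false

namespace Pool.Agent.Results.MP_6dc9d1_nt.OddSymmetricPowers

open Finset NumberField IsDedekindDomain

/-- `D` is squarefree and congruent to `1` modulo `2 + 2 i`. -/
def Primary (D : GaussianInt) : Prop := Squarefree D ∧ (⟨2, 2⟩ : GaussianInt) ∣ D - 1

/-- The primary squarefree `d` of norm at most `X` which are prime to all elements of `S`. -/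
def Twists (S : Finset GaussianInt) (X : ℝ) : Set GaussianInt :=
  {d | Primary d ∧ (∀ D ∈ S, IsCoprime d D) ∧ ((d.norm : ℤ) : ℝ) ≤ X}

section

variable {F : Type} [Field F] [NumberField F]

/-- `F = ℚ(i)(√δ : δ ∈ s)`, where `ℤ[i]` is embedded in `F` by `ι`. -/
def Generated (ι : GaussianInt →+* 𝓞 F) (s : Finset GaussianInt) : Prop :=
  ∃ r : GaussianInt → 𝓞 F, (∀ d ∈ s, r d ^ 2 = ι d) ∧
    ∀ L : Subfield F, (∀ g : GaussianInt, (ι g : F) ∈ L) → (∀ d ∈ s, (r d : F) ∈ L) → L = ⊤

/-- `q_v`, the number of elements of the residue field `k_v`. -/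
noncomputable def q (v : HeightOneSpectrum (𝓞 F)) : ℕ := Ideal.absNorm v.asIdeal

/-- `#E(k_v)`, with the point at infinity, for `E : y² = x³ - D² x`. -/
noncomputable def points (ι : GaussianInt →+* 𝓞 F) (D : GaussianInt)
    (v : HeightOneSpectrum (𝓞 F)) : ℕ :=
  Nat.card {P : (𝓞 F ⧸ v.asIdeal) × (𝓞 F ⧸ v.asIdeal) // P.2 ^ 2 =
    P.1 ^ 3 - Ideal.Quotient.mk v.asIdeal (ι (D ^ 2)) * P.1} + 1

/-- The curve `E : y² = x³ - D² x` over `F`. -/
noncomputable def curve (ι : GaussianInt →+* 𝓞 F) (D : GaussianInt) : WeierstrassCurve.Affine F :=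
  WeierstrassCurve.toAffine { a₁ := 0, a₂ := 0, a₃ := 0, a₄ := -((ι D : F) ^ 2), a₆ := 0 }

/-- `L` is entire and it is, for `E : y² = x³ - D² x`, the `L`-function of `Sym^n E` over `F` without the
Euler factors at the places dividing `M`: for `Re z > n / 2 + 1` it is the product over the places
`v` of `F` not dividing `M` of `∏_{j = 0}^{n} (1 - α_v^(n-j) β_v^j q_v^(-z))⁻¹`, where `α_v`, `β_v` are the
roots of `X² - a_v X + q_v`, `a_v = q_v + 1 - #E(k_v)`. -/
def IsSymLFunction (ι : GaussianInt →+* 𝓞 F) (D M : GaussianInt) (n : ℕ) (L : ℂ → ℂ) : Prop :=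
  Differentiable ℂ L ∧ ∃ α β : {v : HeightOneSpectrum (𝓞 F) // ι M ∉ v.asIdeal} → ℂ,
    (∀ v, α v + β v = (q v.1 : ℂ) + 1 - points ι D v.1 ∧ α v * β v = q v.1) ∧
    ∀ z : ℂ, (n : ℝ) / 2 + 1 < z.re →
      HasProd (fun v => (∏ j ∈ range (n + 1), (1 - α v ^ (n - j) * β v ^ j * (q v.1 : ℂ) ^ (-z)))⁻¹)
        (L z)

end

/-- For all finite sets `U` of rational primes `l = 3 mod 8`, `l = 1 mod N(d ∏ S)`, and all the fields
`F` between `ℚ(i)` and `ℚ(i)(√D : D ∈ S, √l : l ∈ U)` (these are the fields generated by the square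
roots of the elements of a set `s` of products of elements of `S` and `U`): the curve
`E_d : y² = x³ - ((1 + i) d)² x` has only finitely many points over `F`, and for all odd `n = 2 m - 1` the
`L`-function of `Sym^n E_d` over `F` is entire and not zero at `s = m`. -/
def Good (S : Finset GaussianInt) (d : GaussianInt) : Prop :=
  ∀ U : Finset ℕ, (∀ l ∈ U, l.Prime ∧ l % 8 = 3 ∧ l ≡ 1 [MOD (d * ∏ D ∈ S, D).norm.natAbs]) →
    ∀ s : Finset GaussianInt,
      (∀ δ ∈ s, ∃ J ⊆ S ∪ U.image fun l : ℕ => (l : GaussianInt), δ = ∏ x ∈ J, x) →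
      ∀ (F : Type) [Field F] [NumberField F] (ι : GaussianInt →+* 𝓞 F), Generated ι s →
        Finite (curve ι (⟨1, 1⟩ * d)).Point ∧ ∀ m : ℕ, 1 ≤ m → ∃ L : ℂ → ℂ,
          IsSymLFunction ι (⟨1, 1⟩ * d) (⟨1, 1⟩ * d * ∏ δ ∈ s, δ) (2 * m - 1) L ∧ L m ≠ 0

/-- **Main theorem.** Put `α = ∏ (1 - 2^(-2n-1)) > 0.419` and let `S` be a finite set of primary
squarefree Gaussian integers.  Among the primary squarefree `d` of norm at most `X` prime to `S` (their
number is at least a constant times `X`) the proportion of the `d` with the property `Good` is at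
least `α ^ (2 ^ #S) - ε` for all large `X`, for every `ε > 0`. -/
theorem result (S : Finset GaussianInt) (hS : ∀ D ∈ S, Primary D) :
    (419 / 1000 : ℝ) < ∏' n : ℕ, (1 - (1 / 2 : ℝ) ^ (2 * n + 1)) ∧
    (∀ X : ℝ, (Twists S X).Finite) ∧
    (∃ c : ℝ, 0 < c ∧ ∀ X : ℝ, 1 ≤ X → c * X ≤ ((Twists S X).ncard : ℝ)) ∧
    ∀ ε : ℝ, 0 < ε → ∃ X₀ : ℝ, ∀ X : ℝ, X₀ ≤ X →
      ((∏' n : ℕ, (1 - (1 / 2 : ℝ) ^ (2 * n + 1))) ^ (2 ^ #S) - ε) * ((Twists S X).ncard : ℝ) ≤
        ({d ∈ Twists S X | Good S d}.ncard : ℝ) :=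
  ⟨Pool.Agent.Y944.PP.t_NUM,
    Pool.Agent.Y690.JP.MF.last2 S hS Pool.Agent.Y37.JP.t_FIN Pool.Agent.Y690.JP.MF.t_LOC
      Pool.Agent.Y261.JP.t_EULF⟩

end Pool.Agent.Results.MP_6dc9d1_nt.OddSymmetricPowers
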